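import Mathlib
import Pool.Agent.X206.LLr.Final

/-!
`L_∞([0,1]; L_r[0,1])` is isomorphic to the `ℓ_∞`-sum of the spaces `ℓ_r^n`, for every
`r ∈ [1, ∞)`, real or complex scalars.

Main step: `L_∞(L_r)` is complemented in the `ℓ_∞`-sum. A function is sent to its discretised
dyadic averages; a bounded sequence of step functions is sent to the almost everywhere limit of the
martingale on the unit square formed by the limits (along an ultrafilter) of its averages over dyadic
squares. Sections of the limit are bounded in `L_r` by Fatou's lemma. Then the decomposition method.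
-/

set_option autoImplicit false

open MeasureTheory
open scoped ENNReal

namespace Pool.Agent.Results.MP_cd69b0_an.BochnerIsomorphism

/-- Lebesgue measure on the unit interval. -/
noncomputable def leb : Measure ℝ := (volume : Measure ℝ).restrict (Set.Icc (0 : ℝ) 1)

/-- The Bochner space `L_∞([0,1]; X)` is isomorphic to the `ℓ_∞`-sum of the spaces `W n`: there is
a bounded linear bijection with bounded inverse. -/
def IsoLinfSum (𝕜 : Type) [RCLike 𝕜] (X : Type) [NormedAddCommGroup X] [NormedSpace 𝕜 X]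
    (W : ℕ → Type) [∀ n, NormedAddCommGroup (W n)] [∀ n, NormedSpace 𝕜 (W n)] : Prop :=
  Nonempty (Lp X ∞ leb ≃L[𝕜] lp W ∞)

/-- For every `r ∈ [1, ∞)` the Bochner space `L_∞(L_r)` is isomorphic to the `ℓ_∞`-sum of the
spaces `ℓ_r^n`, `n ≥ 1`, and to `ℓ_∞(L_r)`. -/
theorem result (𝕜 : Type) [RCLike 𝕜] (r : ℝ≥0∞) [Fact (1 ≤ r)] (hr : r ≠ ∞) :
    IsoLinfSum 𝕜 (Lp 𝕜 r leb) (fun n => PiLp r (fun _ : Fin (n + 1) => 𝕜)) ∧
    IsoLinfSum 𝕜 (Lp 𝕜 r leb) (fun _ => Lp 𝕜 r leb) := by
  have h : Fact (r ≠ ∞) := ⟨hr⟩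
  refine ⟨Pool.Agent.X206.LLr.main 𝕜 r, ?_⟩
  obtain ⟨j, q, hjq⟩ :=
    (Pool.Agent.X206.LLr.E_compl 𝕜 r).trans (Pool.Agent.X206.LLr.BB_compl 𝕜 r)
  exact Pool.Agent.Helper234.LInfS.iso_of_compl 𝕜 (Lp 𝕜 r leb) j q hjq

end Pool.Agent.Results.MP_cd69b0_an.BochnerIsomorphism
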